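import Mathlib
import Pool.Agent.J4.H38.GD.Defs
import Pool.Agent.J4.H38.DV.Base
import Pool.Agent.J4.H38.SR2.Fix2
import Pool.Agent.Y822.CTu

/-! Project GD (helper38), pieces BR and BRT: the base in a residue class, for both kinds of shifts at once, from the statements of the
other pieces. -/

set_option autoImplicit false

namespace Pool.Agent.J4.H55.GD

open Finset Filter
open Pool.Agent.Y822
open Pool.Agent.J4.H38.SR
open Pool.Agent.J4.H38.SR2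
open Pool.Agent.J4.H38.DV
open Pool.Agent.J4.H38.GD
open Pool.Agent.H373R2.T7 (pz Vz mem_pz rhoA PerA lam_fund facA)

/-- statement of `av1` -/
def St_av1 : Prop := ∀ C : ℝ, 0 ≤ C → ∃ (C' : ℝ) (w₀ : ℕ), 0 < C' ∧ 2 ≤ w₀ ∧ ∀ w : ℕ, w₀ ≤ w → ∀ᶠ N : ℕ in atTop,
    ∀ H y M : ℕ, Real.log N ≤ H → H ≤ N → M ≤ N →
    ∑ t ∈ Icc 1 H, (∏ p ∈ (pz y).filter (fun p => w < p ∧ p ∣ M + t), (1 + C / (p : ℝ)) - 1) ≤ C' / w * H ∧
    ∀ s ∈ Icc 1 H, ∑ t ∈ (Icc 1 H).erase s,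
      (∏ p ∈ (pz y).filter (fun p => w < p ∧ (p : ℤ) ∣ (s : ℤ) - t), (1 + C / (p : ℝ)) - 1) ≤ C' / w * H

/-- statement of `av2` -/
def St_av2 : Prop := ∀ k : ℕ, ∃ (C Ca : ℝ) (w₀ : ℕ), 0 < C ∧ 0 ≤ Ca ∧ 2 ≤ w₀ ∧ ∀ w : ℕ, w₀ ≤ w →
    ∀ (M y : ℕ) (A : Finset ℕ) (ζ : ℝ), w ≤ y → 0 ≤ ζ → ζ ≤ 1 →
    ∑ t ∈ A, (∏ p ∈ (pz y).filter (fun p => w < p ∧ p ∣ M + t), (1 + Ca / (p : ℝ)) - 1) ≤ ζ * A.card →
    (∀ s ∈ A, ∑ t ∈ A.erase s,
      (∏ p ∈ (pz y).filter (fun p => w < p ∧ (p : ℤ) ∣ (s : ℤ) - t), (1 + Ca / (p : ℝ)) - 1) ≤ ζ * A.card) →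
    ∀ j ≤ k, ∑ T ∈ A.powersetCard j, |Pw (QW (sh M T)) w y - GG w y ^ j| ≤
      C * (ζ + 1 / w) * (GG w y * A.card) ^ j

/-- statement of `AB_card` -/
def St_AB : Prop := ∀ w : ℕ, ∃ H₀ : ℕ, ∀ H b : ℕ, H₀ ≤ H →
    1 / 2 * Vz w * H ≤ (AB w b H).card ∧ ((AB w b H).card : ℝ) ≤ H

/-- statement of `gg_bd2` -/
def St_gg2 : Prop := ∀ w y : ℕ, 2 ≤ w → w ≤ y → 1 / 2 * (Vz y / Vz w) ≤ GG w y ∧ GG w y ≤ Vz y / Vz w

/-- statement of `Vz_low` -/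
def St_Vlow : Prop := ∃ c : ℝ, 0 < c ∧ ∀ w : ℕ, 3 ≤ w → c / Real.log w ≤ Vz w ∧ Vz w ≤ 1

/-- statement of `xcntR` and `xcntRT` -/
def St_x (Fx : (ℕ → ℝ) → ℕ → ℕ → Finset ℕ → ℝ) (M : ℕ → ℕ) (b : ℕ → ℕ → ℕ → ℕ) : Prop :=
  ∀ k w : ℕ, 2 ≤ w → ∀ η : ℝ, 0 < η → ∃ K : ℕ, 1 ≤ K ∧ ∀ U : ℕ, ∃ x0 : ℕ, ∀ᶠ N : ℕ in atTop,
    ∀ y : ℕ, x0 ≤ y → w ≤ y → y ^ K ≤ N → ∀ r : ℕ, (∀ p ∈ pz w, ¬ p ∣ r) → ∀ H : ℕ,
    ∀ T ⊆ AB w (b w r N) H, T.card ≤ k →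
    |Fx (muR w r) N y T - N / phW w * Pw (QW (sh (M N) T)) w y| ≤
      η * (N / phW w * Pw (QW (sh (M N) T)) w y) + N / Real.log N ^ U

/-- statement of `stepD` and `stepDT` -/
def St_st (Fx : (ℕ → ℝ) → ℕ → ℕ → Finset ℕ → ℝ) : Prop :=
  ∀ j : ℕ, ∃ C : ℝ, 0 < C ∧ ∀ (N y : ℕ) (A : Finset ℕ) (f μ : ℕ → ℝ),
    (∀ m, 0 ≤ f m ∧ f m ≤ μ m) →
    ∀ (G η n e₀ : ℝ) (P : Finset ℕ → ℝ), 0 < G → G ≤ 1 → 0 < η → η ≤ 1 → 0 ≤ n → 0 ≤ e₀ →
    1 ≤ η * (G * A.card) → e₀ ≤ η * (n * G ^ (j + 2)) →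
    (∀ T ⊆ A, T.card ≤ j + 2 → 0 ≤ P T ∧ |Fx μ N y T - n * P T| ≤ η * (n * P T) + e₀) →
    (∀ i ≤ j + 2, ∑ T ∈ A.powersetCard i, |P T - G ^ i| ≤ η * (G * A.card) ^ i) →
    ∑ S ∈ A.powersetCard j, ∑ t ∈ A \ S, |Fx f N y (insert t S) - G * Fx f N y S| ≤
      C * Real.sqrt η * (n * (G * A.card) ^ (j + 1))

lemma ev_w (a b : ℝ) : ∀ᶠ w : ℕ in atTop, a * Real.log w + b ≤ Real.sqrt w := by
  have h1 := (isLittleO_log_rpow_atTop (r := 1 / 2) (by norm_num)).bound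
    (show (0 : ℝ) < 1 / (2 * (|a| + 1)) by positivity)
  have h2 := (tendsto_natCast_atTop_atTop (R := ℝ)).eventually h1
  have h3 : Tendsto (fun w : ℕ => Real.sqrt w) atTop atTop :=
    Real.tendsto_sqrt_atTop.comp (tendsto_natCast_atTop_atTop (R := ℝ))
  filter_upwards [h2, h3.eventually_ge_atTop (2 * b)] with w hw hb
  have h4 : ((w : ℝ)) ^ (1 / 2 : ℝ) = Real.sqrt w := (Real.sqrt_eq_rpow _).symm
  rw [h4, Real.norm_eq_abs, Real.norm_eq_abs, abs_of_nonneg (Real.sqrt_nonneg _)] at hw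
  have h5 : a * Real.log w ≤ |a| * |Real.log w| := by
    rw [← abs_mul]
    exact le_abs_self _
  have h6 : |a| * |Real.log w| ≤ 1 / 2 * Real.sqrt w := by
    have h7 : |a| * |Real.log w| ≤ |a| * (1 / (2 * (|a| + 1)) * Real.sqrt w) :=
      mul_le_mul_of_nonneg_left hw (abs_nonneg _)
    have h8 : |a| * (1 / (2 * (|a| + 1))) ≤ 1 / 2 := by
      have h9 : 0 < |a| + 1 := by positivity
      rw [mul_one_div, div_le_iff₀ (by positivity)]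
      linarith
    have h10 := Real.sqrt_nonneg (w : ℝ)
    nlinarith
  linarith

lemma Pw_nonneg (Q : ℕ → ℕ → Prop) (w y : ℕ) : 0 ≤ Pw Q w y :=
  prod_nonneg fun p hp => (facA Q p (mem_pz.1 (mem_filter.1 hp).1).2).1

lemma phW_pos (w : ℕ) : 0 < phW w := by
  refine prod_pos fun p hp => ?_
  have h := (mem_pz.1 hp).2.two_le
  have h' : (2 : ℝ) ≤ p := by exact_mod_cast h
  linarith

lemma Vz_pos2 (z : ℕ) : 0 < Vz z := by
  refine prod_pos fun p hp => ?_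
  have h : (2 : ℝ) ≤ p := by exact_mod_cast (mem_pz.1 hp).2.two_le
  have h2 : 1 / (p : ℝ) ≤ 1 / 2 := one_div_le_one_div_of_le (by norm_num) h
  linarith

lemma Vz_anti2 {w y : ℕ} (h : w ≤ y) : Vz y ≤ Vz w := by
  have hs : pz w ⊆ pz y := fun p hp => mem_pz.2 ⟨(mem_pz.1 hp).1.trans h, (mem_pz.1 hp).2⟩
  unfold Vz
  rw [← prod_sdiff hs]
  have h1 : ∏ p ∈ pz y \ pz w, (1 - 1 / (p : ℝ)) ≤ 1 := by
    refine prod_le_one (fun p hp => ?_) fun p hp => ?_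
    · have h : (2 : ℝ) ≤ p := by exact_mod_cast (mem_pz.1 (mem_sdiff.1 hp).1).2.two_le
      have h2 : 1 / (p : ℝ) ≤ 1 / 2 := one_div_le_one_div_of_le (by norm_num) h
      linarith
    · have : 0 ≤ 1 / (p : ℝ) := by positivity
      linarith
  have h2 := (Vz_pos2 w).le
  unfold Vz at h2
  exact mul_le_of_le_one_left h2 h1

/-- **BR and BRT** -/
theorem base_core (Fx : (ℕ → ℝ) → ℕ → ℕ → Finset ℕ → ℝ) (M : ℕ → ℕ) (hM : ∀ N, M N ≤ N)
    (b : ℕ → ℕ → ℕ → ℕ) (hav1 : St_av1) (hav2 : St_av2) (hAB : St_AB) (hgg : St_gg2) (hVl : St_Vlow)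
    (hx : St_x Fx M b) (hstep : St_st Fx) (hchain : St_chain) (k : ℕ) :
    ∃ (C : ℝ) (w₀ : ℕ), 0 < C ∧ 3 ≤ w₀ ∧ ∀ w : ℕ, w₀ ≤ w → ∃ κ₀ : ℝ, 0 < κ₀ ∧ ∀ κ : ℝ, 0 < κ → κ ≤ κ₀ →
    ∃ Λ : ℝ, 0 < Λ ∧ ∀ᶠ N : ℕ in atTop, ∀ y : ℕ, (y : ℝ) < (N : ℝ) ^ κ → (N : ℝ) ^ κ ≤ y + 1 →
    ∀ H : ℕ, Λ * Real.log N ≤ H → H ≤ N → ∀ r : ℕ, (∀ p ∈ pz w, ¬ p ∣ r) →
    ∀ f : ℕ → ℝ, (∀ m, 0 ≤ f m ∧ f m ≤ muR w r m) →
    ∑ D ∈ (AB w (b w r N) H).powersetCard k, |Fx f N y D - GG w y ^ k * Fx f N y ∅| ≤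
      C * (1 / (w : ℝ)) ^ (1 / 4 : ℝ) * (N / phW w * (GG w y * H) ^ k) := by
  classical
  choose Cj hCj hstep' using hstep
  obtain ⟨C, hC⟩ : ∃ C : ℝ, C = 1 + ∑ j ∈ range k, Cj j := ⟨_, rfl⟩
  have hC1 : ∀ j < k, Cj j ≤ C := by
    intro j hj
    have h1 : Cj j ≤ ∑ j ∈ range k, Cj j :=
      single_le_sum (f := Cj) (fun i _ => (hCj i).le) (mem_range.2 hj)
    rw [hC]
    linarith
  have hC0 : 0 < C := by
    have h1 : 0 ≤ ∑ j ∈ range k, Cj j := sum_nonneg fun i _ => (hCj i).le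
    rw [hC]
    linarith
  obtain ⟨C2, Ca, w2, hC2, hCa, hw22, hav2'⟩ := hav2 (k + 1)
  obtain ⟨C1, w1, hC1p, hw12, hav1'⟩ := hav1 Ca hCa
  obtain ⟨cV, hcV, hVl'⟩ := hVl
  obtain ⟨w3, hw3⟩ := eventually_atTop.1 ((ev_w (C2 * (2 * C1 / cV)) C2).and (ev_w (2 * C1 / cV) 0))
  refine ⟨k * C + 1, 3 + w1 + w2 + w3, by positivity, by omega, fun w hw => ?_⟩
  obtain ⟨hwA, hwB⟩ := hw3 w (by omega)
  have hw0 : (0 : ℝ) < w := by exact_mod_cast (by omega : 0 < w)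
  have hw1r : (1 : ℝ) ≤ w := by exact_mod_cast (by omega : 1 ≤ w)
  have hw3' : 3 ≤ w := by omega
  -- the parameter `η`
  obtain ⟨s, hs⟩ : ∃ s : ℝ, s = (1 / (w : ℝ)) ^ (1 / 4 : ℝ) := ⟨_, rfl⟩
  have hs0 : 0 < s := by rw [hs]; exact Real.rpow_pos_of_pos (by positivity) _
  have hs1 : s ≤ 1 := by
    rw [hs]
    exact Real.rpow_le_one (by positivity) (by rw [div_le_one hw0]; exact hw1r) (by norm_num)
  have hs4 : s ^ 4 = 1 / w := by
    rw [hs, ← Real.rpow_natCast, ← Real.rpow_mul (by positivity)]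
    norm_num
  have hs2 : s ^ 2 * Real.sqrt w = 1 := by
    have h1 : (s ^ 2 * Real.sqrt w) ^ 2 = 1 := by
      rw [mul_pow, Real.sq_sqrt hw0.le, ← pow_mul, hs4]
      field_simp
    have h2 : 0 ≤ s ^ 2 * Real.sqrt w := by positivity
    nlinarith
  obtain ⟨η, hη⟩ : ∃ η : ℝ, η = s ^ 2 := ⟨_, rfl⟩
  have hη0 : 0 < η := by rw [hη]; positivity
  have hη1 : η ≤ 1 := by rw [hη]; exact pow_le_one₀ hs0.le hs1
  have hsq : Real.sqrt η = s := by rw [hη]; exact Real.sqrt_sq hs0.le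
  -- the parameter `ζ`
  have hVw := Vz_pos2 w
  obtain ⟨hVlw, hVw1⟩ := hVl' w hw3'
  have hlogw : 0 < Real.log w := Real.log_pos (by exact_mod_cast (by omega : 1 < w))
  obtain ⟨ζ, hζ⟩ : ∃ ζ : ℝ, ζ = 2 * C1 / (w * Vz w) := ⟨_, rfl⟩
  have hζ0 : 0 ≤ ζ := by rw [hζ]; positivity
  have hζle : ζ ≤ 2 * C1 / cV * Real.log w / w := by
    rw [hζ]
    have h1 : 1 / Vz w ≤ Real.log w / cV := by
      rw [div_le_div_iff₀ hVw hcV]
      rw [div_le_iff₀ hlogw] at hVlw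
      linarith
    calc 2 * C1 / (w * Vz w) = 2 * C1 / w * (1 / Vz w) := by field_simp
      _ ≤ 2 * C1 / w * (Real.log w / cV) := mul_le_mul_of_nonneg_left h1 (by positivity)
      _ = 2 * C1 / cV * Real.log w / w := by field_simp
  have hsqw : Real.sqrt w ≤ w := by
    rw [Real.sqrt_le_left hw0.le]
    nlinarith
  have hζ1 : ζ ≤ 1 := by
    refine hζle.trans ?_
    rw [div_le_one hw0]
    linarith
  have hζη : C2 * (ζ + 1 / w) ≤ η := by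
    have h1 : C2 * (ζ + 1 / w) ≤ (C2 * (2 * C1 / cV) * Real.log w + C2) / w := by
      calc C2 * (ζ + 1 / w) ≤ C2 * (2 * C1 / cV * Real.log w / w + 1 / w) :=
            mul_le_mul_of_nonneg_left (by linarith) hC2.le
        _ = _ := by ring
    refine h1.trans ?_
    rw [div_le_iff₀ hw0, hη]
    refine hwA.trans (le_of_eq ?_)
    have h2 : Real.sqrt w * Real.sqrt w = w := Real.mul_self_sqrt hw0.le
    calc Real.sqrt w = (s ^ 2 * Real.sqrt w) * Real.sqrt w := by rw [hs2, one_mul]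
      _ = s ^ 2 * (Real.sqrt w * Real.sqrt w) := by ring
      _ = s ^ 2 * w := by rw [h2]
  -- the count
  obtain ⟨K, hK1, hxK⟩ := hx (k + 1) w (by omega) η hη0
  obtain ⟨x0, hx0⟩ := hxK (k + 2)
  obtain ⟨c0, hc0, hV⟩ := Vz_sharp
  obtain ⟨H₀, hH₀⟩ := hAB w
  have hph := phW_pos w
  refine ⟨1 / K, by positivity, fun κ hκ hκ1 => ?_⟩
  refine ⟨4 * κ / (c0 * η * Vz w) + 1, by positivity, ?_⟩
  have hlim : Tendsto (fun N : ℕ => Real.log (N : ℝ)) atTop atTop :=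
    Real.tendsto_log_atTop.comp (tendsto_natCast_atTop_atTop (R := ℝ))
  have hpow : Tendsto (fun N : ℕ => (N : ℝ) ^ κ) atTop atTop :=
    (tendsto_rpow_atTop hκ).comp (tendsto_natCast_atTop_atTop (R := ℝ))
  filter_upwards [hav1' w (by omega), hx0, hlim.eventually_ge_atTop 1, hlim.eventually_ge_atTop (H₀ : ℝ),
    hlim.eventually_ge_atTop (phW w / (η * (c0 / (2 * κ)) ^ (k + 1))),
    hpow.eventually_ge_atTop (((max x0 (max w 3) : ℕ) : ℝ) + 1), eventually_ge_atTop 2]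
    with N hN1 hN2 hN4 hN3 hN5 hN6 hN7
  intro y hy1 hy2 H hH1 hH2 r hr f hf
  -- facts on `y`
  have hymax : max x0 (max w 3) ≤ y := by
    have h1 : ((max x0 (max w 3) : ℕ) : ℝ) ≤ y := by linarith
    exact_mod_cast h1
  have hyx : x0 ≤ y := (le_max_left _ _).trans hymax
  have hyw : w ≤ y := ((le_max_left _ _).trans (le_max_right _ _)).trans hymax
  have hy3 : 3 ≤ y := ((le_max_right _ _).trans (le_max_right _ _)).trans hymax
  have hNr : (1 : ℝ) < N := by exact_mod_cast (by omega : 1 < N)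
  have hN0 : (0 : ℝ) < N := by linarith
  have hL0 : 0 < Real.log N := by linarith
  have hyK : y ^ K ≤ N := by
    have h1 : (y : ℝ) ^ K ≤ N := by
      calc (y : ℝ) ^ K ≤ ((N : ℝ) ^ κ) ^ K := pow_le_pow_left₀ (Nat.cast_nonneg _) hy1.le K
        _ = (N : ℝ) ^ (κ * K) := by rw [Real.rpow_mul hN0.le, Real.rpow_natCast]
        _ ≤ (N : ℝ) ^ (1 : ℝ) := by
            apply Real.rpow_le_rpow_of_exponent_le hNr.le
            have hK0 : (0 : ℝ) < K := by exact_mod_cast hK1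
            calc κ * K ≤ 1 / K * K := mul_le_mul_of_nonneg_right hκ1 hK0.le
              _ = 1 := by field_simp
        _ = N := Real.rpow_one _
    exact_mod_cast h1
  have hlogy : Real.log y ≤ κ * Real.log N := by
    rw [← Real.log_rpow hN0]
    exact Real.log_le_log (by exact_mod_cast (by omega : 0 < y)) hy1.le
  have hlogy0 : 0 < Real.log y := Real.log_pos (by exact_mod_cast (by omega : 1 < y))
  -- the density
  obtain ⟨G, hG⟩ : ∃ G : ℝ, G = GG w y := ⟨_, rfl⟩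
  obtain ⟨hG1, hG2'⟩ := hgg w y (by omega) hyw
  rw [← hG] at hG1 hG2' ⊢
  have hG2 : G ≤ 1 := hG2'.trans (by
    rw [div_le_one hVw]
    exact Vz_anti2 hyw)
  have hVy := Vz_pos2 y
  have hG1' : 1 / 2 * Vz y ≤ G := by
    refine le_trans ?_ hG1
    have h1 : Vz y ≤ Vz y / Vz w := by
      rw [le_div_iff₀ hVw]
      nlinarith
    linarith
  have hGlow : c0 / (2 * κ) / Real.log N ≤ G := by
    have h1 := hV y hy3
    have h2 : c0 / (κ * Real.log N) ≤ c0 / Real.log y :=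
      div_le_div_of_nonneg_left hc0.le hlogy0 hlogy
    have h3 : c0 / (2 * κ) / Real.log N = 1 / 2 * (c0 / (κ * Real.log N)) := by
      field_simp
    rw [h3]
    linarith
  have hG0 : 0 < G := lt_of_lt_of_le (by positivity) hGlow
  -- the number of the shifts
  have hΛ : Real.log N ≤ (4 * κ / (c0 * η * Vz w) + 1) * Real.log N := by
    have : 0 ≤ 4 * κ / (c0 * η * Vz w) * Real.log N := by positivity
    linarith
  have hlogH : Real.log N ≤ H := hΛ.trans hH1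
  have hHH₀ : H₀ ≤ H := by exact_mod_cast hN3.trans hlogH
  obtain ⟨A, hA⟩ : ∃ A : Finset ℕ, A = AB w (b w r N) H := ⟨_, rfl⟩
  obtain ⟨hAc1, hAc2⟩ := hH₀ H (b w r N) hHH₀
  rw [← hA] at hAc1 hAc2 ⊢
  have hcard : 2 * κ / (c0 * η) * Real.log N ≤ A.card := by
    refine le_trans ?_ hAc1
    have h1 : 4 * κ / (c0 * η * Vz w) * Real.log N ≤ H := by
      refine le_trans ?_ hH1
      have : (4 * κ / (c0 * η * Vz w) + 1) * Real.log N =
        4 * κ / (c0 * η * Vz w) * Real.log N + Real.log N := by ring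
      linarith
    calc 2 * κ / (c0 * η) * Real.log N = 1 / 2 * Vz w * (4 * κ / (c0 * η * Vz w) * Real.log N) := by
          field_simp
          ring
      _ ≤ 1 / 2 * Vz w * H := mul_le_mul_of_nonneg_left h1 (by positivity)
  have hone : 1 ≤ η * (G * A.card) := by
    have h1 : c0 / (2 * κ) / Real.log N * (2 * κ / (c0 * η) * Real.log N) ≤ G * A.card :=
      mul_le_mul hGlow hcard (by positivity) hG0.le
    have h2 : c0 / (2 * κ) / Real.log N * (2 * κ / (c0 * η) * Real.log N) = 1 / η := by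
      field_simp
    rw [h2] at h1
    calc (1 : ℝ) = η * (1 / η) := by field_simp
      _ ≤ η * (G * A.card) := mul_le_mul_of_nonneg_left h1 hη0.le
  -- the averages
  have hAsub : A ⊆ Icc 1 H := by rw [hA]; exact filter_subset _ _
  obtain ⟨hs1', hs2'⟩ := hN1 H y (M N) hlogH hH2 (hM N)
  have hHA : C1 / w * H ≤ ζ * A.card := by
    have h1 : (H : ℝ) ≤ 2 / Vz w * A.card := by
      rw [div_mul_eq_mul_div, le_div_iff₀ hVw]
      linarith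
    calc C1 / w * H ≤ C1 / w * (2 / Vz w * A.card) := mul_le_mul_of_nonneg_left h1 (by positivity)
      _ = ζ * A.card := by rw [hζ]; field_simp
  have hone' : ∀ F : Finset ℕ, (0 : ℝ) ≤ ∏ p ∈ F, (1 + Ca / (p : ℝ)) - 1 := by
    intro F
    have h1 : ∏ _p ∈ F, (1 : ℝ) ≤ ∏ p ∈ F, (1 + Ca / (p : ℝ)) :=
      prod_le_prod (fun _ _ => zero_le_one) fun p _ => by
        have : 0 ≤ Ca / (p : ℝ) := by positivity
        linarith
    rw [prod_const_one] at h1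
    linarith
  have hav := hav2' w (by omega) (M N) y A ζ hyw hζ0 hζ1
    ((sum_le_sum_of_subset_of_nonneg hAsub fun t _ _ => hone' _).trans (hs1'.trans hHA))
    fun t ht => (sum_le_sum_of_subset_of_nonneg (erase_subset_erase _ hAsub)
      fun t _ _ => hone' _).trans ((hs2' t (hAsub ht)).trans hHA)
  -- the main term and the error term
  obtain ⟨n, hn⟩ : ∃ n : ℝ, n = N / phW w := ⟨_, rfl⟩
  have hn0 : 0 ≤ n := by rw [hn]; positivity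
  rw [← hn]
  have he0 : ∀ i ≤ k + 1, (N : ℝ) / Real.log N ^ (k + 2) ≤ η * (n * G ^ i) := by
    intro i hi
    have h1 : G ^ (k + 1) ≤ G ^ i := pow_le_pow_of_le_one hG0.le hG2 hi
    have h2 : (c0 / (2 * κ)) ^ (k + 1) / Real.log N ^ (k + 1) ≤ G ^ (k + 1) := by
      rw [← div_pow]
      exact pow_le_pow_left₀ (by positivity) hGlow _
    have h3 : 1 ≤ η * (c0 / (2 * κ)) ^ (k + 1) * Real.log N / phW w := by
      have h4 : 0 < η * (c0 / (2 * κ)) ^ (k + 1) := by positivity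
      rw [div_le_iff₀ h4] at hN5
      rw [le_div_iff₀ hph]
      linarith
    have h5 : 1 / Real.log N ^ (k + 2) ≤
        η * ((c0 / (2 * κ)) ^ (k + 1) / Real.log N ^ (k + 1)) / phW w := by
      rw [div_le_iff₀ (by positivity), pow_succ (Real.log N) (k + 1)]
      have h6 : η * ((c0 / (2 * κ)) ^ (k + 1) / Real.log N ^ (k + 1)) / phW w *
          (Real.log N ^ (k + 1) * Real.log N) =
          η * (c0 / (2 * κ)) ^ (k + 1) * Real.log N / phW w := by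
        field_simp
      rw [h6]
      exact h3
    calc (N : ℝ) / Real.log N ^ (k + 2) = N * (1 / Real.log N ^ (k + 2)) := by ring
      _ ≤ N * (η * ((c0 / (2 * κ)) ^ (k + 1) / Real.log N ^ (k + 1)) / phW w) :=
          mul_le_mul_of_nonneg_left h5 hN0.le
      _ ≤ N * (η * G ^ i / phW w) := by
          apply mul_le_mul_of_nonneg_left _ hN0.le
          apply div_le_div_of_nonneg_right _ hph.le
          exact mul_le_mul_of_nonneg_left (h2.trans h1) hη0.le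
      _ = η * (n * G ^ i) := by rw [hn]; ring
  -- the steps
  have hsteps : ∀ j < k, ∑ S ∈ A.powersetCard j, ∑ t ∈ A \ S,
      |Fx f N y (insert t S) - G * Fx f N y S| ≤ (C * s) * (n * (G * A.card) ^ (j + 1)) := by
    intro j hj
    have h1 := hstep' j N y A f (muR w r) hf G η n
      (N / Real.log N ^ (k + 2)) (fun T => Pw (QW (sh (M N) T)) w y) hG0 hG2 hη0 hη1 hn0 (by positivity)
      hone (he0 _ (by omega)) ?_ ?_
    · refine h1.trans ?_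
      rw [hsq]
      apply mul_le_mul_of_nonneg_right _ (by positivity)
      exact mul_le_mul_of_nonneg_right (hC1 j hj) hs0.le
    · intro T hT hTc
      refine ⟨Pw_nonneg _ _ _, ?_⟩
      have h2 := hN2 y hyx hyw hyK r hr H T (by rw [← hA]; exact hT) (by omega)
      rw [hn]
      exact h2
    · intro i hi
      refine (hG ▸ hav i (by omega)).trans ?_
      exact mul_le_mul_of_nonneg_right hζη (by positivity)
  have hch := hchain k A (Fx f N y) hG0.le (by positivity : 0 ≤ C * s) hn0 hsteps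
  refine hch.trans ?_
  rw [← hs]
  have h1 : n * (G * A.card) ^ k ≤ n * (G * H) ^ k := by
    apply mul_le_mul_of_nonneg_left _ hn0
    exact pow_le_pow_left₀ (by positivity) (mul_le_mul_of_nonneg_left hAc2 hG0.le) _
  have h2 : 0 ≤ n * (G * H) ^ k := by positivity
  calc (k : ℝ) * (C * s) * (n * (G * A.card) ^ k) ≤ (k : ℝ) * (C * s) * (n * (G * H) ^ k) :=
        mul_le_mul_of_nonneg_left h1 (by positivity)
    _ ≤ (k * C + 1) * s * (n * (G * H) ^ k) := by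
        apply mul_le_mul_of_nonneg_right _ h2
        nlinarith

/-- **BR**, from the other pieces -/
theorem baseR' (hav1 : St_av1) (hav2 : St_av2) (hAB : St_AB) (hgg : St_gg2) (hVl : St_Vlow)
    (hx : St_x Fs (fun N => N) bG) (hstep : St_st Fs) (hchain : St_chain) (k : ℕ) :
    ∃ (C : ℝ) (w₀ : ℕ), 0 < C ∧ 3 ≤ w₀ ∧ ∀ w : ℕ, w₀ ≤ w → ∃ κ₀ : ℝ, 0 < κ₀ ∧ ∀ κ : ℝ, 0 < κ → κ ≤ κ₀ →
    ∃ Λ : ℝ, 0 < Λ ∧ ∀ᶠ N : ℕ in atTop, ∀ y : ℕ, (y : ℝ) < (N : ℝ) ^ κ → (N : ℝ) ^ κ ≤ y + 1 →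
    ∀ H : ℕ, Λ * Real.log N ≤ H → H ≤ N → ∀ r : ℕ, (∀ p ∈ pz w, ¬ p ∣ r) → ∀ f : ℕ → ℝ, (∀ m, 0 ≤ f m ∧ f m ≤ muR w r m) →
    ∑ D ∈ (AB w (bG w r N) H).powersetCard k, |Fs f N y D - GG w y ^ k * Fs f N y ∅| ≤
      C * (1 / (w : ℝ)) ^ (1 / 4 : ℝ) * (N / phW w * (GG w y * H) ^ k) :=
  base_core Fs (fun N => N) (fun _ => le_rfl) bG hav1 hav2 hAB hgg hVl hx hstep hchain k

/-- **BRT**, from the other pieces -/
theorem baseRT' (hav1 : St_av1) (hav2 : St_av2) (hAB : St_AB) (hgg : St_gg2) (hVl : St_Vlow)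
    (hx : St_x Ft (fun _ => 0) (fun _ r _ => r)) (hstep : St_st Ft) (hchain : St_chain) (k : ℕ) :
    ∃ (C : ℝ) (w₀ : ℕ), 0 < C ∧ 3 ≤ w₀ ∧ ∀ w : ℕ, w₀ ≤ w → ∃ κ₀ : ℝ, 0 < κ₀ ∧ ∀ κ : ℝ, 0 < κ → κ ≤ κ₀ →
    ∃ Λ : ℝ, 0 < Λ ∧ ∀ᶠ N : ℕ in atTop, ∀ y : ℕ, (y : ℝ) < (N : ℝ) ^ κ → (N : ℝ) ^ κ ≤ y + 1 →
    ∀ H : ℕ, Λ * Real.log N ≤ H → H ≤ N → ∀ r : ℕ, (∀ p ∈ pz w, ¬ p ∣ r) → ∀ f : ℕ → ℝ, (∀ m, 0 ≤ f m ∧ f m ≤ muR w r m) →
    ∑ D ∈ (AB w r H).powersetCard k, |Ft f N y D - GG w y ^ k * Ft f N y ∅| ≤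
      C * (1 / (w : ℝ)) ^ (1 / 4 : ℝ) * (N / phW w * (GG w y * H) ^ k) :=
  base_core Ft (fun _ => 0) (fun _ => Nat.zero_le _) (fun _ r _ => r) hav1 hav2 hAB hgg hVl hx hstep hchain k

end Pool.Agent.J4.H55.GD
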